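import Pool.Agent.K3h50.NV.Wr
import Pool.Agent.R615.K1.PT

/-!
The rational assembly maps in algebraic `K`-theory commute with the transfers along pairs of cocycles.

`rat (kgr R)` is the functor `G ↦ ℚ ⊗ K₁(R[G])`, `R` is any ring, and `hq n` is `G ↦ H_n(G; ℚ)`.

`G` and `K` are arbitrary groups, `G` acts on a set `A`, and `c, d : G × A → K` are cocycles,
`c(g h, a) = c(g, h a) c(h, a)`, such that for each `g` we have `c(g, a) = d(g, a)` for all but
finitely many `a`. The transfer `trh κ n : H_n(G; ℚ) → H_n(K; ℚ)` of such a pair `κ = (c, d)` is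
induced by the chain map which sends `[g_1 | ⋯ | g_n]` to the finite sum over `b ∈ A` of
`[c(g_i, (g_1 ⋯ g_i)⁻¹ b)]_i - [d(g_i, (g_1 ⋯ g_i)⁻¹ b)]_i`.

There is a linear map `Φ : ℚ ⊗ K₁(R[G]) → ℚ ⊗ K₁(R[K])` such that `Φ ∘ α_G = α_K ∘ trh κ n` for all
`n` and all natural transformations `α` from `H_n(-; ℚ)` to `ℚ ⊗ K₁(R[-])`.
-/

namespace Pool.Agent.Results.MP_5d3e93_al.CocyclePairs

open CategoryTheory Pool.Agent.Y483 Pool.Agent.Y477.IW Pool.Agent.R615.K1 Pool.Agent.K3h50.NV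

theorem result (R : Type) [Ring R] {G A K : Type} [Group G] [Group K] (κ : FinPair G A K) :
    ∃ Φ : (rat (kgr R)).obj (GrpCat.of G) →ₗ[ℚ] (rat (kgr R)).obj (GrpCat.of K),
      ∀ (n : ℕ) (α : hq n ⟶ rat (kgr R)) (x : HQ n G),
        Φ ((α.app (GrpCat.of G)).hom x) = (α.app (GrpCat.of K)).hom (trh κ n x) :=
  commute κ (hasPT_rat (hasPTI_kgr R))

end Pool.Agent.Results.MP_5d3e93_al.CocyclePairs
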