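import Pool.Agent.K3h50.NV.Cup3
import Pool.Agent.R615.K1.PT

/-!
Products of one-dimensional classes with coefficients in permutation modules vanish on the kernels of
the rational assembly maps in algebraic `K`-theory, for all groups and all coefficient rings.

`rat (kgr R)` is the functor `G ↦ ℚ ⊗ K₁(R[G])`, `R` is any ring, and
`α_b : H_{d(b)}(G; ℚ) → ℚ ⊗ K₁(R[G])`, `b ∈ B`, is any family of transformations natural in the group
`G`; `kerFam α G` is the kernel of their sum on `⨁_b H_{d(b)}(G; ℚ)`. The statement `Vanish α b G u`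
says that the cochain `u : G^{d(b)} → ℚ` vanishes on each cycle which represents the component in
degree `b` of an element of this kernel.

Let `n = d(b)`. The product of the `n` coordinate classes of `ℤ^n` vanishes on the kernel for the
group `ℤ^n` if and only if for every group `G`, all `G`-sets `V_1, …, V_n`, all crossed homomorphisms
`f_i : G → ℤ[V_i]` and all invariant functions `w : V_1 × ⋯ × V_n → ℚ`, the class of
`w(f_1 ∪ ⋯ ∪ f_n)` in `H^n(G; ℚ)` vanishes on the kernel for `G`.

For instance let `α_b` be the assembly maps given by linearly independent elements of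
`ℚ ⊗ K_{1 - n}(R)`; they are injective for `ℤ^n` (Bass, Heller and Swan). As `R` is arbitrary it can
be a group ring `R₀[T]`.
-/

namespace Pool.Agent.Results.MP_5d3e93_al.PermutationClasses

open CategoryTheory Pool.Agent.Y483 Pool.Agent.Y477.IW Pool.Agent.R615.K1 Pool.Agent.K3h50.NV

theorem result (R : Type) [Ring R] {B : Type} {d : B → ℕ}
    (α : ∀ b : B, hq (d b) ⟶ rat (kgr R)) (b : B) :
    (Vanish α b (Multiplicative (Fin (d b) → ℤ)) fun g => ∏ i, (((g i).toAdd i : ℤ) : ℚ)) ↔
      ∀ (G : Type) [Group G] (V : Fin (d b) → Type) [∀ i, MulAction G (V i)]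
        (f : ∀ i, G → (V i →₀ ℤ)) (w : (∀ i, V i) → ℚ),
        (∀ i g h, f i (g * h) = f i g + (f i h).mapDomain (fun a => g • a)) →
        (∀ (g : G) (v : ∀ i, V i), w (fun i => g • v i) = w v) →
          Vanish α b G (cupc f w) :=
  cupc_iff (hasPT_rat (hasPTI_kgr R)) α b

end Pool.Agent.Results.MP_5d3e93_al.PermutationClasses
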