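import Pool.Agent.K3h28.PA.Fin

/-!
# Groups generated by ranked automorphisms of rooted trees are Farrell-Jones groups

`C` is any class of groups with the closure properties `ClosedE C`, all of which are known for the
class of the groups that satisfy the Farrell-Jones conjecture with coefficients in additive categories
and finite wreath products. `T X` is the group of the automorphisms of the rooted tree `X^*`, `X` finite.

`Ranked` is the smallest class of automorphisms which contains `1`, every automorphism whose sections at
the letters are ranked, and every automorphism whose sections at the words which leave some ray are
ranked and take only finitely many values. There is no condition on the ray and on the order in which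
the values occur, so there are uncountably many ranked automorphisms which are not finite-state.

(1) Every group generated by ranked automorphisms is in `C`.

(2) All finite-state automorphisms of polynomial activity (of any degree) and all bounded automorphisms
(finite-state or not) are ranked.

For groups generated by finite-state automorphisms of polynomial activity this is the starting theorem
`MP_59dd5b_al.PolynomialActivity`, for automorphisms which are linear over bounded ones
`MP_98022b_gt.LinearActivity`, for bounded ones `MP_490288_al.BoundedAutomata` (the last two for classes
without the extension criterion as well). New are the ranked automorphisms outside these three kinds.
The proof here is new and does not use these files.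

Outline of the proof of (1). Fix a letter `d`. Let `E 0 = 1`, let `E 1` be the group generated by the
automorphisms without sections off a ray, and `E (n+1)` the group generated by `E n` and the group
`BB (E n)` of the automorphisms which fix the ray `ddd...` and whose sections off this ray are in `E n`
and take finitely many values. The tree action identifies `E (n+1)` with the quotient of the amalgamated
product of `E n` and `BB (E n)` over `BB (E (n-1))` by the elements which die, so it suffices that this
amalgam is in `C`. To this end one must embed both factors compatibly in a group in `C`. For `BB 1`
instead of `BB (E (n-1))` such a group is the extension by `E n` of the functions of finite range on the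
vertices of the tree; from there one climbs to `BB (E (n-1))` by a double induction (`claim`), in which
groups with a recursion that contain `E i` and a second copy of `BB (E m)` are replaced by amalgams of
the same kind divided by their dying elements.
-/

set_option autoImplicit false

namespace Pool.Agent.Results.MP_5d3e93_al.RankedAutomorphisms

open Pool.Agent.Y462.SS Pool.Agent.Y110.FJ Pool.Agent.K3h28.PA

theorem result (X : Type) (hX : Finite X) :
    (∀ C : (∀ (G : Type) [Group G], Prop), ClosedE C →
      ∀ S : Set (T X), (∀ s ∈ S, Ranked s) → C (Subgroup.closure S)) ∧
    (∀ g : T X, (Set.range (sw g)).Finite → PolyAct g → Ranked g) ∧
    (∀ g : T X, IsBdd g.1 → Ranked g) :=
  ⟨fun _ hC S hS => ranked_closed hC X hX S hS,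
    fun g hf hp => pa_ranked _ g hf le_rfl hp,
    fun g ⟨R, k, h⟩ => bd_ranked k R.card R g rfl h⟩

end Pool.Agent.Results.MP_5d3e93_al.RankedAutomorphisms
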