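import Pool.Agent.K3h50.LF.Stm
import Pool.Agent.R615.KU.DetK
import Pool.Agent.Y983.PW.T

/-!
Injectivity of the rational assembly maps in algebraic `K`-theory for the groups `G / [R, R]`, where
`G` acts on a tree and `R` is a normal subgroup of `G`, for all coefficient rings.

`K` is any ring, `rat (kgr K)` is the functor `G ↦ ℚ ⊗ K₁(K[G])`, and `hq j` is the functor
`G ↦ H_j(G; ℚ)`. `DetK K G` says: for every group `T` and every family of transformations
`α_{j,i} : H_j(G; ℚ) → ℚ ⊗ K₁(K[G × T])`, `i ∈ I_j`, natural in the group `G`, such that the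
`α_{j,i}`, `i ∈ I_j`, are linearly independent on `ℤ^j` for each `j`, the sum of all the `α_{j,i}` is
injective on `G`.

Let a group `G` act by automorphisms on a tree, with any number of orbits, and let `R` be any normal
subgroup of `G`.

(1) If the stabilisers of the vertices are locally finite, then `DetK K (G / [R, R])`.

(2) Let the stabilisers of the edges be locally finite, and let the elements of `R` which fix a
vertex have finite order (for instance let `G` be a free product of arbitrary groups `A_i`, and `R` a
normal subgroup with `R ∩ A_i = 1`). If `H_j(H; ℚ) = 0` for all subgroups `H` of the images of the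
vertex stabilisers in `G / R`, then for all families as above the kernel of the sum of the `α_{j,i}`
for `G / [R, R]` is zero in degree `j`.
-/

namespace Pool.Agent.Results.MP_5d3e93_al.TreeQuotients

open CategoryTheory Pool.Agent.Y483 Pool.Agent.Y483.PW Pool.Agent.Y477.IW Pool.Agent.Y75.MQ
  Pool.Agent.R615.K1 Pool.Agent.R615.KU Pool.Agent.R793.Mag Pool.Agent.K3h50.LF

theorem result (K : Type) [Ring K] (G V : Type) [Group G] [MulAction G V] (X : SimpleGraph V)
    (hX : TreeAction G V X) (R : Subgroup G) [R.Normal] :
    (LocFinVertices G V → DetK K (G ⧸ ⁅R, R⁆)) ∧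
      (LocFinEdges G X → (∀ (v : V) (g : G), g ∈ R → g • v = v → IsOfFinOrder g) →
        ∀ (T : Type) [Group T] (I : ℕ → Type)
          (α : ∀ j : ℕ, I j → (hq j ⟶ timesF T ⋙ rat (kgr K))),
          (∀ j, LinearIndependent ℚ fun i : I j => ((α j i).app (zn j)).hom) →
          ∀ (j : ℕ) (i : I j), j = 0 ∨ VertexVanish G V R j →
            ZeroAt (fun p : Σ j, I j => α p.1 p.2) ⟨j, i⟩ (G ⧸ ⁅R, R⁆)) := by
  have hE : HasPT (rat (kgr K)) := hasPT_rat (hasPTI_kgr K)
  refine ⟨fun hv T _ I α hα => ?_, fun he hR T _ I α hα j i hj => ?_⟩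
  · exact main_loc (hE.times T) (fun p : Σ j, I j => α p.1 p.2)
      (fun n => ker_Zn_of_li α hα n) hX R hv
  · exact main_deg (hE.times T) (fun p : Σ j, I j => α p.1 p.2)
      (fun n => ker_Zn_of_li α hα n) hX R he hR ⟨j, i⟩ hj

end Pool.Agent.Results.MP_5d3e93_al.TreeQuotients
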